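import Pool.Agent.CYN.Fin
import Pool.Agent.CYE.Fin
import Pool.Agent.CYE.Bro
import Pool.Agent.CYE.Pot

/-!
# The kernel of a semipositive null form is a holomorphic foliation with complete leaves

`A` is a compact complex space of dimension `n`, given by holomorphic charts of its smooth part, the
changes of which have a Jacobian determinant of absolute value `1`, and by local embeddings into
complex number spaces, with an invertible canonical sheaf (`Index1`). This covers every normal compact
complex space `X` with `K_X ~ 0`: take charts of the smooth part in which a generator `Ω` of `K_X` is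
`dz_1 ∧ ... ∧ dz_n`; for a local embedding `ζ` the quotients `d ζ_I / Ω` are holomorphic functions on
the smooth part, hence on `X`, hence restrictions of holomorphic functions of the ambient space, and
they vanish at the singular points (Zariski's lemma). If `X` is klt with `K_X ~_Q 0` its index one cover
is such a space, and the cover is étale over the smooth part of `X`.

`η` is a smooth semipositive closed real (1,1)-form on `A` with `η^n = 0`, given by local potentials
`W ∘ ζ` with `W` smooth and plurisubharmonic on an open set of the ambient space; for example the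
curvature form of a smooth semipositive metric on a line bundle `L` with `L^n = 0`.

The theorem says that on the set of the smooth points at which `η^(n-1)` is not zero the kernel of `η`
is a holomorphic foliation by curves: locally it is spanned by a holomorphic vector field without
zeros. Its vectors have a length: `|a|² = |i_a Ω|² / (η^(n-1) / (n-1)!)`. Through every such point `x`,
with any given unit vector `a` of the kernel as velocity, there is exactly one entire curve
`Φ : ℂ → X` whose velocity is everywhere a unit vector of the kernel; in particular `Φ` never meets a singular point or a point where `η^(n-1)` vanishes. Its image is the whole leaf, and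
two points of `ℂ` with the same image differ by a period: so every leaf is isometric to `ℂ / Γ`, a
plane, a cylinder or an elliptic curve. The norm of every holomorphic section of every power of `L`
is constant on the leaf; every other smooth metric of semipositive curvature of `L` differs from the
given one by a function that is constant on the leaf (so the foliation does not depend on the metric);
and the derivative of `Φ` is bounded for any metric of `X`.
-/

set_option autoImplicit false

namespace Pool.Agent.Results.MP_cda8c3_ag.EntireLeaves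

open Pool.Agent.CYF Pool.Agent.CYN Pool.Agent.CYE

theorem result {n : ℕ} {X : Type*} [TopologicalSpace X] [CompactSpace X] [T2Space X]
    {ι κ : Type*} (A : Spc (Fin n) X ι κ) (hA : A.Index1) (η : Form A) :
    (∀ (i : ι) (z : E n), η.Reg i z → (∃ a, η.Unit i z a) ∧
      ∃ O : Set (E n), IsOpen O ∧ z ∈ O ∧ O ⊆ (A.c i).target ∧
        ∃ u : E n → E n, DifferentiableOn ℂ u O ∧
          ∀ y ∈ O, u y ≠ 0 ∧ ∀ a : E n, η.Ker i y a ↔ ∃ c : ℂ, a = c • u y) ∧
    (∀ (i : ι) (z a : E n), η.Unit i z a →
      ∃ Φ : ℂ → X, η.IsLeaf Set.univ Φ ∧ Φ 0 = (A.c i).symm z ∧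
        deriv (fun t => A.c i (Φ t)) 0 = a ∧
        (∀ Ψ : ℂ → X, η.IsLeaf Set.univ Ψ → Ψ 0 = (A.c i).symm z →
          deriv (fun t => A.c i (Ψ t)) 0 = a → Ψ = Φ) ∧
        Set.range Φ = η.leaf ((A.c i).symm z) ∧
        (∀ t₁ t₂, Φ t₁ = Φ t₂ → ∀ t, Φ (t₁ + t) = Φ (t₂ + t)) ∧
        (∀ (m : ℝ) (s : ι → E n → ℂ), η.IsSection m s → ∀ (t : ℂ) (j : ι),
          Φ t ∈ (A.c j).source →
            ‖s j (A.c j (Φ t))‖ ^ 2 * Real.exp (-(m * η.w j (A.c j (Φ t))))
              = ‖s i z‖ ^ 2 * Real.exp (-(m * η.w i z))) ∧
        ∀ f : X → ℝ, η.IsPot f → ∀ t : ℂ, f (Φ t) = f ((A.c i).symm z)) ∧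
    ∀ (k : κ) (Q : Set X), IsCompact Q → Q ⊆ A.V k → ∃ M : ℝ, ∀ Φ : ℂ → X,
      η.IsLeaf Set.univ Φ → ∀ t, Φ t ∈ Q → DifferentiableAt ℂ (fun s => A.ζ k (Φ s)) t ∧
        ‖deriv (fun s => A.ζ k (Φ s)) t‖ ≤ M := by
  refine ⟨fun i z hz => ⟨unit_exists hz, Pool.Agent.CYN.main η i z hz⟩, fun i z a ha => ?_,
    fun k Q hQ hQV => ?_⟩
  · obtain ⟨Φ, h1, h2, h3, h4, h5, h6⟩ := (Pool.Agent.CYE.main hA η i z (unit_reg ha).1).2 a ha
    refine ⟨Φ, h1, h2, h3, fun Ψ g1 g2 g3 => ?_, h4, h5, h6, fun f hf t => ?_⟩
    · have hi : Ψ 0 ∈ (A.c i).source := by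
        rw [g2]
        exact (A.c i).map_target ha.1
      have he := luq isOpen_univ g1 h1 (Set.mem_univ (0 : ℂ)) hi (g2.trans h2.symm)
        (g3.trans h3.symm)
      funext t
      exact leaf_idn isOpen_univ isPreconnected_univ g1 h1 (Set.mem_univ (0 : ℂ)) he t
        (Set.mem_univ t)
    · rw [← h2]
      exact pot_const hf h1 t 0
  · obtain ⟨M, hM⟩ := brody η k hQ hQV
    exact ⟨M, fun Φ h t ht => hM Set.univ Φ isOpen_univ h t (Set.mem_univ t) ht⟩

end Pool.Agent.Results.MP_cda8c3_ag.EntireLeaves
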