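import Pool.Agent.ARK.Main4

/-!
Holomorphic tensors and forms are parallel along the kernel of a semipositive form of any rank, and
their norms detect compact leaves.

`X` is a compact Kähler manifold of dimension `n` (charts `A`, Kähler form `om`), `η` a smooth closed
semipositive real (1,1)-form on `X` of rank at most `ν`: the curvature of a hermitian metric on a
line bundle `L`, or the pullback of a Kähler form. `KerConst η ν u`: the smooth function `u` on `X`
is constant in the directions of the kernel of `η`, at all points where the rank of `η` is `ν`. At a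
point `z` where the rank of `η` is `ν`, let `a` be a vector in the kernel of `η`.
(0) A smooth function `u` on `X` whose Levi form is `≥ 0` on the kernel of `η` (at all points of `X`)
satisfies `KerConst η ν u`.
(1) If `τ` is a holomorphic section of `T^(⊗p) ⊗ L^m` (`p ≥ 0`, `m` real), then the squared norm of
the class of `τ` in `(T / ker η)^(⊗p) ⊗ L^m` is a function `N` on `X` with `KerConst η ν N`, and the
antilinear form `η^(⊗p)(τ, ·)` with values in `L^m` is antiholomorphic in the direction `a` for the
metric (this is `D_a` of the class of `τ`). If this class is not contained in `N'^(⊗p)` for a proper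
subspace `N'` of `T_z / ker η_z`, then the kernel of `η` is a holomorphic subbundle near `z`.
(2) If `v` is a holomorphic form of degree `ν` with values in `L^m` which is killed by the kernel of
`η`, then the norm of `v` is constant in the direction `a`, and if `v` is not zero at `z` then
the kernel of `η` is a holomorphic subbundle near `z`.
(3) For every choice of `2 ν` functions `u_j` as in (0) or (1) there is an open subset `Q` of `X`
which contains almost all points where the rank of `η` is `ν` and the `du_j` are independent, and
every point of `Q` has an open neighbourhood `W` in `Q` with a map `f : W → ℂ^ν` such that: the rank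
of `η` is `ν` on `W`, `f` is holomorphic and the kernel of `df` is the kernel of `η` at all points of
`W`; the fibres of `f` on `W` are the components of the level sets of `u` on `X` through the points
of `W`, and they are compact and connected; all functions `v` with `KerConst η ν v` are constant on
them. So near every point of `Q` the kernel of `η` is the relative tangent bundle of a holomorphic
submersion with compact connected fibres, of dimension `n - ν`.
-/

open scoped ContDiff
open Complex MeasureTheory

namespace Pool.Agent.Results.MP_cda8c3_ag.ParallelTensors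

open Pool.Agent.CYF Pool.Agent.NDC Pool.Agent.ARK

theorem result {n : ℕ} {X : Type*} [TopologicalSpace X] [T2Space X] [CompactSpace X] {ι : Type*}
    {A : Mfd n X ι} (om : Form A) (hom : om.Positive) (η : Form A) (hη : η.Semipositive) (ν : ℕ)
    (hν : η.RankLE ν) :
    (∀ u : X → ℝ, (∀ i, ContDiffOn ℝ ∞ (fun z => u ((A.c i).symm z)) (A.c i).target) →
      (∀ i, ∀ z ∈ (A.c i).target, ∀ a, Ker η i z a →
        0 ≤ (levi (fun y => u ((A.c i).symm y)) z a a).re) →
      KerConst η ν u) ∧
    (∀ (p : ℕ) (m : ℝ) (τ : ι → (Fin p → Fin n) → E n → ℂ), IsTensor η p m τ →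
      (∃ N : X → ℝ, (∀ i, ∀ z ∈ (A.c i).target, N ((A.c i).symm z) = nrm (η.w i) m (τ i) z) ∧
        KerConst η ν N) ∧
      ∀ i z, Full η ν i z →
        (∀ a, Ker η i z a → ∀ L, d10 (low (η.w i) m (τ i) L) z a = 0) ∧
        (Spread η i z m (τ i) → HolKer η i z)) ∧
    (∀ (m : ℝ) (v : ι → (Fin ν → Fin n) → E n → ℂ), IsForm η ν m v → Horizontal η ν v →
      ∀ i z, Full η ν i z →
        (∀ a, Ker η i z a → ∀ J : Fin ν → Fin n, ((lm (η.w i) z).submatrix J J).det ≠ 0 →
          d10 (fun y => (vn (η.w i) m (v i) J y : ℂ)) z a = 0) ∧
        ((∃ J, v i J z ≠ 0) → HolKer η i z)) ∧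
    (∀ u : Fin (2 * ν) → X → ℝ, (∀ j, KerConst η ν (u j)) →
      ∃ Q : Set X, IsOpen Q ∧
        (∀ i, ∀ᵐ z ∂(volume : Measure (E n)), Full η ν i z →
          LinearIndependent ℝ (fun j => fderiv ℝ (fun y => u j ((A.c i).symm y)) z) →
          (A.c i).symm z ∈ Q) ∧
        ∀ x ∈ Q, ∃ (W : Set X) (f : X → (Fin ν → ℂ)), IsOpen W ∧ x ∈ W ∧ W ⊆ Q ∧
          (∀ i, ∀ z ∈ (A.c i).target, (A.c i).symm z ∈ W → Full η ν i z ∧
            DifferentiableAt ℂ (fun z => f ((A.c i).symm z)) z ∧
            ∀ a : E n, fderiv ℂ (fun z => f ((A.c i).symm z)) z a = 0 ↔ Ker η i z a) ∧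
          ∀ y ∈ W, ∀ T : Set X, T = connectedComponentIn {y' | ∀ j, u j y' = u j y} y →
            IsCompact T ∧ T = {y' | y' ∈ W ∧ f y' = f y} ∧
            ∀ v : X → ℝ, KerConst η ν v → ∀ y' ∈ T, v y' = v y) := by
  have h := main om hom η hη ν hν
  refine ⟨fun u hu h2 => ⟨hu, h.1 u hu h2⟩, fun p m τ hτ => ⟨tensor_kerConst hη hν hom hτ,
    fun i z hz => ⟨fun a ha => (((h.2.1 p m τ hτ i z hz).1) a ha).1,
      (h.2.1 p m τ hτ i z hz).2⟩⟩, h.2.2, fun u hu => fibration hη hν hom hu⟩

end Pool.Agent.Results.MP_cda8c3_ag.ParallelTensors
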