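import Pool.Agent.NDC.Qtw
import Pool.Agent.NDC.Qth
import Pool.Agent.NDC.Aex

/-!
`X` is a compact Kähler manifold of dimension `n` and `η` a smooth semipositive closed (1,1)-form of
rank at most `ν`, for example the curvature of a semipositive metric `h` of a line bundle `L`. `Y` is
the complement of the zero set of a section `s` of a power of `L` (the case of the function `1`, that
is `Y = X`, is allowed), `M` the set of all smooth functions `u` on `Y` such that `C η + i∂∂̄u` is
semipositive for some number `C`: it contains the plurisubharmonic functions on `Y` and the functions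
`u` for which `h exp (-u)` is a metric of `L` over `Y` with semipositive curvature. A vector at a point
of `Y` is called null if it lies in the kernels of `η`, `d|s|²`, `∂∂̄u`, `du` for all `u` in `M`, and
`df` for all holomorphic functions `f` on `Y`.

(1) At every point of `Y` there is a complex subspace of dimension at least `n - ν` of null vectors.
(2) Given `ν` functions in `M` with linearly independent `∂u_j` at a point of `Y`, there are, near this
point, `n - ν` holomorphic vector fields that are independent at every point and whose span consists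
of null vectors and is involutive: they generate a holomorphic foliation.
(3) Given `2ν` functions in `M`, through almost every point of `Y` at which they are independent
there is a compact connected component `T` of a common level set; it is regular, a compact complex
submanifold of dimension `n - ν`, `η` vanishes on `T`, and all functions in `M` and all holomorphic
functions on `Y` are constant on `T`.
-/

open scoped ContDiff
open Complex MeasureTheory

namespace Pool.Agent.Results.MP_cda8c3_ag.QuasiPsh

open Pool.Agent.CYF Pool.Agent.NDC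

theorem result {n : ℕ} {X : Type*} [TopologicalSpace X] [T2Space X] [CompactSpace X] {ι : Type*}
    {A : Mfd n X ι} {η om : Form A} {ν : ℕ} (hη : η.Semipositive) (hν : η.RankLE ν)
    (hom : om.Positive) {m : ℝ} {s : ι → E n → ℂ} (hs : η.IsSection m s) :
    (∀ i, ∀ z ∈ Ou A (Off A s) i, ∃ V : Submodule ℂ (E n), n ≤ Module.finrank ℂ V + ν ∧
      ∀ v ∈ V, η.Null m s i z v) ∧
    (∀ u : Fin ν → X → ℝ, (∀ j, η.InM (Off A s) (u j)) → ∀ i, ∀ z ∈ Ou A (Off A s) i,
      LinearIndependent ℂ (fun j => d10 (cx (vt A (u j) i)) z) →
        ∃ (O : Set (E n)) (d : ℕ) (ξ : Fin d → E n → E n), IsOpen O ∧ z ∈ O ∧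
          O ⊆ Ou A (Off A s) i ∧ d + ν = n ∧ (∀ k, DifferentiableOn ℂ (ξ k) O) ∧ ∀ y ∈ O,
            LinearIndependent ℂ (fun k => ξ k y) ∧
            (∀ v ∈ Submodule.span ℂ (Set.range fun k => ξ k y), η.Null m s i y v) ∧
            ∀ k l, VectorField.lieBracket ℂ (ξ k) (ξ l) y ∈
              Submodule.span ℂ (Set.range fun k => ξ k y)) ∧
    ∀ u : Fin (2 * ν) → X → ℝ, (∀ j, η.InM (Off A s) (u j)) →
      ∀ i, ∀ᵐ z ∂(volume : Measure (E n)), z ∈ Ou A (Off A s) i →
        LinearIndependent ℝ (fun j => fderiv ℝ (vt A (u j) i) z) →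
        ∀ (x : X) (T : Set X), x = (A.c i).symm z →
          T = connectedComponentIn {y | y ∈ Off A s ∧ ∀ j, u j y = u j x} x →
          IsCompact T ∧ (∀ y ∈ T, len η m s y = len η m s x) ∧
          (∀ w : X → ℝ, η.InM (Off A s) w → ∀ y ∈ T, w y = w x) ∧
          (∀ g : X → ℂ, HolOn A (Off A s) g → ∀ y ∈ T, g y = g x) ∧
          ∀ i', ∀ z' ∈ (A.c i').target, (A.c i').symm z' ∈ T →
            LinearIndependent ℝ (fun j => fderiv ℝ (vt A (u j) i') z') ∧
            ∀ v : E n, (∀ j, fderiv ℝ (vt A (u j) i') z' v = 0) →
              (∀ j, fderiv ℝ (vt A (u j) i') z' (I • v) = 0) ∧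
              ∀ b, levi (η.w i') z' v b = 0 := by
  refine ⟨part_null hη hν hom hs, fun u hu i z hz hind => three_q hη hν hom hs hu hz hind, ?_⟩
  intro u hu i
  filter_upwards [ae_good (isOpen_Off hs) (fun j => (hu j).smooth) i] with z hz hzt hind x T hx hT
  subst hx
  have hreg : ∀ i', ∀ z' ∈ (A.c i').target, (A.c i').symm z' ∈ T →
      LinearIndependent ℝ (fun j => fderiv ℝ (vt A (u j) i') z') := by
    intro i' z' hz' hT'
    have h1 : (A.c i').symm z' ∈ {y | y ∈ Off A s ∧ ∀ j, u j y = u j ((A.c i).symm z)} := by
      rw [hT] at hT'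
      exact connectedComponentIn_subset _ _ hT'
    exact hz hzt hind i' z' ⟨hz', h1.1⟩ h1.2
  have h := two_q hη hν hom hs hu hzt.2 hT hreg
  exact ⟨h.1, h.2.1, h.2.2.1, h.2.2.2.1, fun i' z' hz' hT' =>
    ⟨hreg i' z' hz' hT', h.2.2.2.2 i' z' hz' hT'⟩⟩

end Pool.Agent.Results.MP_cda8c3_ag.QuasiPsh
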