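import Pool.Agent.LFN.FinX

/-!
The null foliation of a semipositive form `η` with `η² ∧ (σ σ̄)^(n-1) = 0` on a compact normal
symplectic variety: it is holomorphic, and all its leaves are complete quotients of `ℂ^r` in the
regular part.
-/

open Pool.Agent.DTW Pool.Agent.SKF Pool.Agent.NSK Pool.Agent.LFC Pool.Agent.LFN

namespace Pool.Agent.Results.MP_cda8c3_ag.SymplecticCompleteLeaves

open scoped Topology in
/-- Let `X` be a compact normal complex space with a holomorphic symplectic form `σ` on its regular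
part, `dim X = 2n`, and `η` a smooth closed semipositive (1,1)-form on `X` with
`η² ∧ (σ σ̄)^(n-1) = 0`.
(1) Through every regular point `x` there is a leaf map: a holomorphic map `Φ` from `ℂ^r` to the
regular part of `X` with `Φ 0 = x`, `r` the rank of `η` at `x` and at all points `Φ t`, whose
derivative is at every `t ∈ ℂ^r` an isometric isomorphism onto the `σ`-orthogonal of the kernel of
`η` (which is the kernel itself if `r = n`), with the metric inverse to `η`. (2) Two leaf maps whose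
images meet differ by a unitary affine map; so the images, the leaves, are a partition of the
regular part. (3) Leaf maps are locally injective; a curve tangent to the leaves that starts in a
leaf stays in it, and every point of a leaf is reached by such a curve. (4) A path in the regular
part tangent to the leaves, of bounded speed, defined for `a < s < b`, converges for `s → b` to a
point of the regular part. (5) At every regular point the cubic form of `η` vanishes, and where the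
kernel of `η` has dimension `n` it is spanned by holomorphic vector fields, isotropic for `σ` and
with brackets in the kernel: the leaves are there the leaves of a holomorphic Lagrangian
foliation. -/
theorem result {n m : ℕ} {X : Type*} [TopologicalSpace X] [CompactSpace X] [T2Space X]
    {ι κ : Type*} (A : Variety n m X ι κ) (η : Form A.toSpace) :
    (∀ x : X, (∃ i, x ∈ (A.c i).source) →
      ∃ r ≤ n, ∃ Φ : (Fin r → ℂ) → X, LeafMap η Φ ∧ Φ 0 = x) ∧
    (∀ (r r' : ℕ) (Φ : (Fin r → ℂ) → X) (Ψ : (Fin r' → ℂ) → X), LeafMap η Φ → LeafMap η Ψ →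
      ∀ s t, Φ s = Ψ t → ∃ V : (Fin r → ℂ) ≃ₗ[ℂ] (Fin r' → ℂ),
        (∀ ξ, ∑ k, Complex.normSq (V ξ k) = ∑ k, Complex.normSq (ξ k)) ∧
        ∀ ξ, Φ (s + ξ) = Ψ (t + V ξ)) ∧
    (∀ (r : ℕ) (Φ : (Fin r → ℂ) → X), LeafMap η Φ →
      (∀ t, ∃ δ > 0, Set.InjOn Φ (Metric.ball t δ)) ∧
      (∀ (a b : ℝ) (γ : ℝ → X), (∀ s ∈ Set.Icc a b, NullCurve η γ s) → (∃ t, γ a = Φ t) →
        ∀ s ∈ Set.Icc a b, ∃ t, γ s = Φ t) ∧
      ∀ (ξ : Fin r → ℂ) (s₀ : ℝ), NullCurve η (fun s : ℝ => Φ (s • ξ)) s₀) ∧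
    (∀ (p : ℝ → X) (a b K : ℝ), a < b →
      (∀ s ∈ Set.Ioo a b, ContinuousAt p s ∧ ∃ i, p s ∈ (A.c i).source) →
      (∀ i, ∀ s ∈ Set.Ioo a b, p s ∈ (A.c i).source → ∃ v c : E n,
        HasDerivAt (fun s' => A.c i (p s')) v s ∧
        (∀ a', S v a' = levi (η.w i) (A.c i (p s)) a' c) ∧
        (levi (η.w i) (A.c i (p s)) c c).re ≤ K) →
      ∃ x : X, (∃ i, x ∈ (A.c i).source) ∧ Filter.Tendsto p (𝓝[<] b) (𝓝 x)) ∧
    ∀ i, ∀ z ∈ (A.c i).target,
      (∀ a b : E n, (∀ a', S a a' = levi (η.w i) z a' b) →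
        ∀ c d, d01 (fun y => levi (η.w i) y a c) z d = 0) ∧
      (Module.finrank ℂ (kerL (η.w i) z) = n →
        ∃ V : Set (E n), IsOpen V ∧ z ∈ V ∧ V ⊆ (A.c i).target ∧ ∃ a : Fin n → E n → E n,
          (∀ k, DifferentiableOn ℂ (a k) V) ∧ ∀ y ∈ V,
            LinearIndependent ℂ (fun k => a k y) ∧
            Submodule.span ℂ (Set.range fun k => a k y) = kerL (η.w i) y ∧
            (∀ k l, S (a k y) (a l y) = 0) ∧
            ∀ k l, fderiv ℂ (a k) y (a l y) - fderiv ℂ (a l) y (a k y) ∈ kerL (η.w i) y) := by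
  refine ⟨fun x hx => ?_, fun r r' Φ Ψ hΦ hΨ s t h => ?_, fun r Φ hΦ => ?_, ?_,
    fun i z hz => ?_⟩
  · have : Nonempty A.toSpace.reg := ⟨⟨x, hx⟩⟩
    have L := locB_sub η
    have L' := fun i => (L i).loc
    obtain ⟨r, Φ, h0, hΦ⟩ := Pool.Agent.LFN.exists_leaf (subPot η) (cpl η) L ⟨x, hx⟩
    obtain ⟨i, hi⟩ := (subAtlas A.toSpace).cover (Φ 0)
    obtain ⟨T, -, hF⟩ := (hΦ 0).2 i hi
    exact ⟨r, (frame_rank (L' i) (((subAtlas A.toSpace).c i).map_source hi) hF).2,
      fun t => (Φ t).1,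
      (leafMap_iff η Φ).1 ((Pool.Agent.LFN.isLeafMap_iff (subPot η) L' Φ).2 hΦ),
      congrArg Subtype.val h0⟩
  · have : Nonempty A.toSpace.reg := ⟨⟨Φ s, (hΦ.2 s).1⟩⟩
    have L := locB_sub η
    have L' := fun i => (L i).loc
    obtain ⟨Φ', hΦ', e1⟩ := leafMap_lift η hΦ
    obtain ⟨Ψ', hΨ', e2⟩ := leafMap_lift η hΨ
    have h' : Φ' s = Ψ' t := Subtype.ext (by rw [e1, e2, h])
    obtain ⟨V, hV, hV'⟩ := Pool.Agent.LFN.dck (subPot η) L'
      ((Pool.Agent.LFN.isLeafMap_iff (subPot η) L' Φ').1 hΦ')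
      ((Pool.Agent.LFN.isLeafMap_iff (subPot η) L' Ψ').1 hΨ') h'
    refine ⟨V, hV, fun ξ => ?_⟩
    rw [← e1, ← e2, hV' ξ]
  · have : Nonempty A.toSpace.reg := ⟨⟨Φ 0, (hΦ.2 0).1⟩⟩
    have L := locB_sub η
    have L' := fun i => (L i).loc
    obtain ⟨Φ', hΦ', e1⟩ := leafMap_lift η hΦ
    have hl := (Pool.Agent.LFN.isLeafMap_iff (subPot η) L' Φ').1 hΦ'
    refine ⟨fun t => ?_, ?_, fun ξ s₀ => ?_⟩
    · obtain ⟨δ, hδ, hinj⟩ := Pool.Agent.LFN.inj (subPot η) L' hl t
      refine ⟨δ, hδ, fun u hu u' hu' h => hinj hu hu' (Subtype.ext ?_)⟩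
      rw [e1, e1, h]
    · rintro a b γ hγ ⟨t, ht⟩ s hs
      obtain ⟨γ', hγ1, hγ2⟩ := nullCurve_lift η γ
      have hab : a ∈ Set.Icc a b := ⟨le_refl _, hs.1.trans hs.2⟩
      obtain ⟨t', ht'⟩ := Pool.Agent.LFN.crv (subPot η) (cpl η) L
        (fun s hs => (Pool.Agent.LFN.isNullCurve_iff (subPot η) L' γ' s).1 (hγ2 s (hγ s hs))) hl
        (t₀ := t) (Subtype.ext (by rw [hγ1 a (hγ a hab).2.1, e1, ht])) s hs
      refine ⟨t', ?_⟩
      rw [← hγ1 s (hγ s hs).2.1, ht', e1]
    · have h1 := (Pool.Agent.LFN.isNullCurve_iff (subPot η) L' _ s₀).2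
        (Pool.Agent.LFN.cvr (subPot η) L hl ξ s₀)
      have h2 := nullCurve_of η h1
      have h3 : (fun s : ℝ => (Φ' (s • ξ)).1) = fun s : ℝ => Φ (s • ξ) := by
        funext s
        exact e1 _
      rw [h3] at h2
      exact h2
  · intro p a b K hab hp hv
    have hv' : ∀ i, ∀ s ∈ Set.Ioo a b, p s ∈ (A.c i).source → ∃ c : E n,
        HasDerivAt (fun s' => A.c i (p s')) (XX (η.w i) (A.c i (p s)) c) s ∧
          (levi (η.w i) (A.c i (p s)) c c).re ≤ K := by
      intro i s hs hi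
      obtain ⟨v, c, h1, h2, h3⟩ := hv i s hs hi
      have h4 : v = XX (η.w i) (A.c i (p s)) c :=
        S_left_inj fun a' => by rw [h2 a', S_X (loc_of η i) ((A.c i).map_source hi)]
      rw [h4] at h1
      exact ⟨c, h1, h3⟩
    obtain ⟨x, hx⟩ := lpt η hab (fun s hs => (hp s hs).1) (fun s hs => (hp s hs).2) hv'
    exact ⟨x, nos η hab (fun s hs => (hp s hs).1) (fun s hs => (hp s hs).2) hv' hx, hx⟩
  · exact ⟨fun a b hab c d => cubicN η i z hz a b hab c d, fun hr => foliationN η i z hz hr⟩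

end Pool.Agent.Results.MP_cda8c3_ag.SymplecticCompleteLeaves
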